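import Pool.Agent.W956.KF.Growth

set_option autoImplicit false
set_option linter.unusedSectionVars false

/-!
# Circuits for `A f(A)`: the part which is linear in `A` and in the argument of `f`
-/

namespace Pool.Agent.H239.SP

open Finset MvPolynomial Pool.Agent.H522R2 Pool.Agent.H522R2.Circuit Pool.Agent.W956.KF
  Pool.Agent.H88R3.MM

/-! ### Computations with dual numbers -/

section dual

variable {S : Type} [CommRing S]

/-- the components of the elements of a set of dual numbers -/
def comps (T : Set (DualNumber S)) : Set S :=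
  (TrivSqZeroExt.fst '' T) ∪ (TrivSqZeroExt.snd '' T)

theorem fst_mem_comps {T : Set (DualNumber S)} {z : DualNumber S} (h : z ∈ T) :
    z.fst ∈ comps T := Or.inl ⟨z, h, rfl⟩

theorem snd_mem_comps {T : Set (DualNumber S)} {z : DualNumber S} (h : z ∈ T) :
    z.snd ∈ comps T := Or.inr ⟨z, h, rfl⟩

theorem comps_mono {T T' : Set (DualNumber S)} (h : T ⊆ T') : comps T ⊆ comps T' :=
  Set.union_subset_union (Set.image_mono h) (Set.image_mono h)

theorem comps_insert (z : DualNumber S) (T : Set (DualNumber S)) :
    comps (insert z T) ⊆ comps T ∪ {z.fst, z.snd} := by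
  rintro w (⟨y, (rfl | hy), rfl⟩ | ⟨y, (rfl | hy), rfl⟩)
  · exact Or.inr (Or.inl rfl)
  · exact Or.inl (fst_mem_comps hy)
  · exact Or.inr (Or.inr rfl)
  · exact Or.inl (snd_mem_comps hy)

theorem reach_dual {T T' : Set (DualNumber S)} {s : ℕ} (h : Reach T s T') :
    Cost (comps T) (comps T') (4 * s) := by
  induction h with
  | refl => exact Cost.of_subset subset_rfl _
  | @add s T' x y h hx hy ih =>
    have h1 : Cost (comps T ∪ comps T') {x.fst + y.fst} 1 :=
      Cost.add (Or.inr (fst_mem_comps hx)) (Or.inr (fst_mem_comps hy))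
    have h2 : Cost (comps T ∪ comps T') {x.snd + y.snd} 1 :=
      Cost.add (Or.inr (snd_mem_comps hx)) (Or.inr (snd_mem_comps hy))
    refine (ih.comp (h1.union h2)).mono subset_rfl ?_ (by omega)
    refine (comps_insert _ _).trans (Set.union_subset_union subset_rfl ?_)
    rintro w (rfl | rfl)
    · exact Or.inl (by simp)
    · exact Or.inr (by simp)
  | @mul s T' x y h hx hy ih =>
    have h1 : Cost (comps T ∪ comps T') {x.fst * y.fst} 1 :=
      Cost.mul (Or.inr (fst_mem_comps hx)) (Or.inr (fst_mem_comps hy))
    have h2 : Cost (comps T ∪ comps T') {x.fst * y.snd} 1 :=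
      Cost.mul (Or.inr (fst_mem_comps hx)) (Or.inr (snd_mem_comps hy))
    have h3 : Cost (comps T ∪ comps T') {x.snd * y.fst} 1 :=
      Cost.mul (Or.inr (snd_mem_comps hx)) (Or.inr (fst_mem_comps hy))
    have h4 : Cost ((comps T ∪ comps T') ∪ ({x.fst * y.snd} ∪ {x.snd * y.fst}))
        {x.fst * y.snd + x.snd * y.fst} 1 :=
      Cost.add (Or.inr (Or.inl rfl)) (Or.inr (Or.inr rfl))
    refine (ih.comp (h1.union ((h2.union h3).comp h4))).mono subset_rfl ?_ (by omega)
    refine (comps_insert _ _).trans (Set.union_subset_union subset_rfl ?_)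
    rintro w (rfl | rfl)
    · exact Or.inl (by simp)
    · refine Or.inr (Or.inr ?_)
      simp only [TrivSqZeroExt.snd_mul, smul_eq_mul, MulOpposite.smul_eq_mul_unop,
        MulOpposite.unop_op, Set.mem_singleton_iff]

theorem cost_dual {T P : Set (DualNumber S)} {s : ℕ} (h : Cost T P s) :
    Cost (comps T) (comps P) (4 * s) := by
  obtain ⟨s', hs', T', h1, h2⟩ := h
  exact (reach_dual h1).mono subset_rfl (comps_mono h2) (by omega)

end dual

/-! ### Substitution of `Λ + ε a + δ b` -/

variable {K : Type} [Field K] {m : ℕ}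

/-- The directional derivative of the polynomial `z` at the point `L` in the direction `b`. -/
noncomputable def dirD {R : Type} [CommRing R] [Algebra K R] (L : Fin m × Fin m → K)
    (b : Fin m × Fin m → R) (z : MvPolynomial (Fin m × Fin m) K) : R :=
  ∑ p, algebraMap K R (MvPolynomial.eval L (pderiv p z)) * b p

/-- Substitution of `L + δ b`. -/
noncomputable def phB {R : Type} [CommRing R] [Algebra K R] (L : Fin m × Fin m → K)
    (b : Fin m × Fin m → R) : MvPolynomial (Fin m × Fin m) K →ₐ[K] DualNumber R :=
  aeval fun p => TrivSqZeroExt.inl (algebraMap K R (L p)) + TrivSqZeroExt.inr (b p)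

theorem phB_fst {R : Type} [CommRing R] [Algebra K R] (L : Fin m × Fin m → K)
    (b : Fin m × Fin m → R) (z : MvPolynomial (Fin m × Fin m) K) :
    (phB L b z).fst = algebraMap K R (MvPolynomial.eval L z) := by
  induction z using MvPolynomial.induction_on with
  | C c => simp [phB, TrivSqZeroExt.algebraMap_eq_inl']
  | add x y hx hy => rw [map_add, TrivSqZeroExt.fst_add, hx, hy, map_add, map_add]
  | mul_X x p hx =>
    rw [map_mul, TrivSqZeroExt.fst_mul, hx, map_mul, map_mul]
    simp [phB]

theorem phB_snd {R : Type} [CommRing R] [Algebra K R] (L : Fin m × Fin m → K)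
    (b : Fin m × Fin m → R) (z : MvPolynomial (Fin m × Fin m) K) :
    (phB L b z).snd = dirD L b z := by
  induction z using MvPolynomial.induction_on with
  | C c =>
    unfold dirD
    simp [phB, TrivSqZeroExt.algebraMap_eq_inl']
  | add x y hx hy =>
    rw [map_add, TrivSqZeroExt.snd_add, hx, hy]
    unfold dirD
    simp only [map_add, add_mul, Finset.sum_add_distrib]
  | mul_X x p hx =>
    rw [map_mul, TrivSqZeroExt.snd_mul, hx, phB_fst]
    have h1 : (phB L b (X p)).snd = b p := by simp [phB]
    have h2 : (phB L b (X p)).fst = algebraMap K R (L p) := by simp [phB]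
    rw [h1, h2]
    unfold dirD
    simp only [Derivation.leibniz, smul_eq_mul, MvPolynomial.pderiv_X, map_add, map_mul, eval_X,
      MulOpposite.smul_eq_mul_unop, MulOpposite.unop_op]
    simp only [add_mul, Finset.sum_add_distrib]
    congr 1
    · rw [Finset.sum_eq_single p]
      · simp
      · intro q _ hq
        simp [Ne.symm hq]
      · simp
    · rw [Finset.sum_mul]
      refine Finset.sum_congr rfl fun q _ => ?_
      ring

/-- Substitution of `L + ε a + δ b` (the outer dual number is `ε`). -/
noncomputable def phi {R : Type} [CommRing R] [Algebra K R] (L : Fin m × Fin m → K)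
    (a b : Fin m × Fin m → R) :
    MvPolynomial (Fin m × Fin m) K →ₐ[K] DualNumber (DualNumber R) :=
  aeval fun p => ((TrivSqZeroExt.inl
    (TrivSqZeroExt.inl (algebraMap K R (L p)) + TrivSqZeroExt.inr (b p) : DualNumber R) +
    TrivSqZeroExt.inr (TrivSqZeroExt.inl (a p) : DualNumber R)) : DualNumber (DualNumber R))

theorem phi_fst {R : Type} [CommRing R] [Algebra K R] (L : Fin m × Fin m → K)
    (a b : Fin m × Fin m → R) (z : MvPolynomial (Fin m × Fin m) K) :
    (phi L a b z).fst = phB L b z := by
  induction z using MvPolynomial.induction_on with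
  | C c => simp [phB, phi, TrivSqZeroExt.algebraMap_eq_inl']
  | add x y hx hy => rw [map_add, TrivSqZeroExt.fst_add, hx, hy, map_add]
  | mul_X x p hx =>
    rw [map_mul, TrivSqZeroExt.fst_mul, hx, map_mul]
    simp [phB, phi]

theorem phi_snd_fst {R : Type} [CommRing R] [Algebra K R] (L : Fin m × Fin m → K)
    (a b : Fin m × Fin m → R) (z : MvPolynomial (Fin m × Fin m) K) :
    (phi L a b z).snd.fst = dirD L a z := by
  have h : ∀ z : MvPolynomial (Fin m × Fin m) K, (phi L a b z).snd.fst = (phB L a z).snd := by
    intro z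
    induction z using MvPolynomial.induction_on with
    | C c => simp [phB, phi, TrivSqZeroExt.algebraMap_eq_inl']
    | add x y hx hy =>
      rw [map_add, TrivSqZeroExt.snd_add, TrivSqZeroExt.fst_add, hx, hy, map_add,
        TrivSqZeroExt.snd_add]
    | mul_X x p hx =>
      rw [map_mul, TrivSqZeroExt.snd_mul, map_mul, TrivSqZeroExt.snd_mul, TrivSqZeroExt.fst_add,
        ← hx, phB_fst]
      have e1 : (phi L a b x).fst.fst = algebraMap K R (MvPolynomial.eval L x) := by
        rw [phi_fst, phB_fst]
      simp only [smul_eq_mul, MulOpposite.smul_eq_mul_unop, MulOpposite.unop_op,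
        TrivSqZeroExt.fst_mul, e1]
      simp [phB, phi]
  rw [h, phB_snd]

end Pool.Agent.H239.SP
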