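import Pool.Agent.H239.SP.Part1

set_option autoImplicit false
set_option linter.unusedSectionVars false

namespace Pool.Agent.H239.SP

open Finset MvPolynomial Pool.Agent.H522R2 Pool.Agent.H522R2.Circuit Pool.Agent.W956.KF
  Pool.Agent.H88R3.MM

variable {K : Type} [Field K] {m : ℕ}

/-- The entry in row `i` and column `k` of the product `A f(A)` of the generic `m × m` matrix `A` with
the matrix `f(A)` of polynomials in its entries. -/
noncomputable def selfEntry (f : Fin m → Fin m → MvPolynomial (Fin m × Fin m) K) (i k : Fin m) :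
    MvPolynomial (Fin m × Fin m) K :=
  ∑ j, X (i, j) * f j k

/-- The lower half (`b = true`) or the upper half (`b = false`) of the rows. -/
def inHalf (b : Bool) (i : Fin m) : Prop := if b then m / 2 ≤ (i : ℕ) else (i : ℕ) < m / 2

instance (b : Bool) (i : Fin m) : Decidable (inHalf b i) := by
  unfold inHalf; infer_instance

/-- `f` *recovers* a generic matrix `Y` from directional derivatives: there are `r` points `L v` and
directions `G v (Y)`, linear in `Y`, all of them with nonzero rows only in one half `b v` of the rows,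
such that `Y j k` is the sum over `v` of the derivative of the entry of `f` at the position
`(σ v j, ρ v k)` (a permutation of the rows and one of the columns) at `L v` in the direction
`G v (Y)`. -/
def Recovers (f : Fin m → Fin m → MvPolynomial (Fin m × Fin m) K) {r : ℕ} (b : Fin r → Bool)
    (σ ρ : Fin r → Equiv.Perm (Fin m)) (L : Fin r → Fin m × Fin m → K)
    (G : Fin r → Fin m × Fin m → Fin m × Fin m → K) : Prop :=
  (∀ v p, ¬ inHalf (b v) p.1 → L v p = 0 ∧ ∀ q, G v p q = 0) ∧
  ∀ j k q, ∑ v, ∑ p, MvPolynomial.eval (L v) (pderiv p (f (σ v j) (ρ v k))) * G v p q =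
    if q = (j, k) then 1 else 0

/-- first row of the other half -/
def base (m : ℕ) (b : Bool) : ℕ := if b then 0 else m / 2

theorem not_inHalf {b : Bool} {t : ℕ} (ht : t < m / 2) (h : base m b + t < m) :
    ¬ inHalf b (⟨base m b + t, h⟩ : Fin m) := by
  unfold inHalf base at *
  cases b
  · simp
  · simp [ht]

theorem base_lt {b : Bool} {t : ℕ} (ht : t < m / 2) : base m b + t < m := by
  unfold base
  cases b
  · simp; omega
  · simp; omega

/-- The rows `g (m / 2), …` of `x` placed in the rows of the other half, columns permuted. -/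
def aMat {R : Type} [CommRing R] (b : Bool) (σ : Equiv.Perm (Fin m)) (g : ℕ)
    (x : Fin m → Fin m → R) : Fin m × Fin m → R := fun p =>
  if h : base m b ≤ p.1 ∧ p.1 < base m b + m / 2 ∧ g * (m / 2) + (p.1 - base m b) < m then
    x ⟨g * (m / 2) + (p.1 - base m b), h.2.2⟩ (σ.symm p.2) else 0

theorem aMat_apply {R : Type} [CommRing R] (hm : 2 ≤ m) (b : Bool) (σ : Equiv.Perm (Fin m))
    (x : Fin m → Fin m → R) (i j : Fin m) :
    aMat b σ ((i : ℕ) / (m / 2)) x
      (⟨base m b + (i : ℕ) % (m / 2), base_lt (Nat.mod_lt _ (by omega))⟩, j) =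
      x i (σ.symm j) := by
  have hpos : 0 < m / 2 := by omega
  have hmod : (i : ℕ) % (m / 2) < m / 2 := Nat.mod_lt _ hpos
  have e1 : (i : ℕ) / (m / 2) * (m / 2) + (base m b + (i : ℕ) % (m / 2) - base m b) = i := by
    rw [Nat.add_sub_cancel_left, mul_comm]
    exact Nat.div_add_mod _ _
  unfold aMat
  have hcond : base m b ≤ base m b + (i : ℕ) % (m / 2) ∧
      base m b + (i : ℕ) % (m / 2) < base m b + m / 2 ∧
      (i : ℕ) / (m / 2) * (m / 2) + (base m b + (i : ℕ) % (m / 2) - base m b) < m := by
    refine ⟨Nat.le_add_right _ _, by omega, ?_⟩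
    rw [e1]
    exact i.2
  have e2 : ∀ i' : Fin m, i' = i → x i' (σ.symm j) = x i (σ.symm j) := by
    rintro _ rfl; rfl
  simp only
  rw [dif_pos hcond]
  exact e2 _ (Fin.ext e1)

/-- **The core identity.** -/
theorem phi_selfEntry {R : Type} [CommRing R] [Algebra K R] (L : Fin m × Fin m → K)
    (a b : Fin m × Fin m → R) (f : Fin m → Fin m → MvPolynomial (Fin m × Fin m) K) (i k : Fin m)
    (hL : ∀ j, L (i, j) = 0) (hb : ∀ j, b (i, j) = 0) :
    (phi L a b (selfEntry f i k)).snd.snd = ∑ j, a (i, j) * dirD L b (f j k) := by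
  unfold selfEntry
  rw [map_sum, TrivSqZeroExt.snd_sum, TrivSqZeroExt.snd_sum]
  refine Finset.sum_congr rfl fun j _ => ?_
  rw [map_mul]
  have e1 : (phi L a b (X (i, j))).fst = 0 := by
    simp [phi, hL, hb]
  have e2 : (phi L a b (X (i, j))).snd = TrivSqZeroExt.inl (a (i, j)) := by
    simp [phi]
  rw [TrivSqZeroExt.snd_mul, e1, e2, phi_fst, zero_smul, zero_add]
  simp only [MulOpposite.smul_eq_mul_unop, MulOpposite.unop_op]
  rw [TrivSqZeroExt.snd_mul, phB_snd]
  simp

/-! ### The number of operations -/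

/-- the linear forms which have to be computed from `Y` -/
noncomputable def gform {r : ℕ} (G : Fin r → Fin m × Fin m → Fin m × Fin m → K) (v : Fin r)
    (p : Fin m × Fin m) : MvPolynomial (Vars m) K :=
  ∑ q, C (G v p q) * X (Sum.inr q)

theorem gform_sum {r : ℕ} {f : Fin m → Fin m → MvPolynomial (Fin m × Fin m) K}
    {b : Fin r → Bool} {σ ρ : Fin r → Equiv.Perm (Fin m)} {L : Fin r → Fin m × Fin m → K}
    {G : Fin r → Fin m × Fin m → Fin m × Fin m → K} (H : Recovers f b σ ρ L G) (j k : Fin m) :
    (X (Sum.inr (j, k)) : MvPolynomial (Vars m) K) =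
      ∑ v, dirD (L v) (gform G v) (f (σ v j) (ρ v k)) := by
  have h1 : ∀ v, dirD (L v) (gform G v) (f (σ v j) (ρ v k)) = ∑ q,
      C (∑ p, MvPolynomial.eval (L v) (pderiv p (f (σ v j) (ρ v k))) * G v p q) *
        X (Sum.inr q) := by
    intro v
    unfold dirD gform
    simp only [Finset.mul_sum, map_sum, map_mul, Finset.sum_mul]
    rw [Finset.sum_comm]
    refine Finset.sum_congr rfl fun q _ => Finset.sum_congr rfl fun p _ => ?_
    rw [MvPolynomial.algebraMap_eq]
    ring
  simp only [h1]
  rw [Finset.sum_comm]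
  have h2 : ∀ q : Fin m × Fin m, ∑ v, C (∑ p,
      MvPolynomial.eval (L v) (pderiv p (f (σ v j) (ρ v k))) * G v p q) *
        (X (Sum.inr q) : MvPolynomial (Vars m) K) =
      if q = (j, k) then X (Sum.inr q) else 0 := by
    intro q
    rw [← Finset.sum_mul, ← map_sum, H.2 j k q]
    split_ifs <;> simp
  rw [Finset.sum_congr rfl fun q _ => h2 q]
  simp

/-- outputs of a circuit for `A f(A)` -/
def selfOut (f : Fin m → Fin m → MvPolynomial (Fin m × Fin m) K) :
    Set (MvPolynomial (Fin m × Fin m) K) :=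
  Set.range fun t : Fin m × Fin m => selfEntry f t.1 t.2

/-- **Products of independent matrices from `A f(A)`: number of operations.** -/
theorem core_cost (hm : 2 ≤ m) {r : ℕ} {f : Fin m → Fin m → MvPolynomial (Fin m × Fin m) K}
    {b : Fin r → Bool} {σ ρ : Fin r → Equiv.Perm (Fin m)} {L : Fin r → Fin m × Fin m → K}
    {G : Fin r → Fin m × Fin m → Fin m × Fin m → K} (H : Recovers f b σ ρ L G) {s cG : ℕ}
    (hC : Cost (inputs K (Fin m × Fin m)) (selfOut f) s)
    (hG : Cost (inputs K (Vars m))
      (Set.range fun t : Fin r × (Fin m × Fin m) => gform G t.1 t.2) cG) :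
    Cost (inputs K (Vars m)) (outMM K m) (cG + r * (48 * s + m ^ 2)) := by
  classical
  set T : Set (MvPolynomial (Vars m) K) := inputs K (Vars m) ∪
    (Set.range fun t : Fin r × (Fin m × Fin m) => gform G t.1 t.2) with hT
  have h0 : (0 : MvPolynomial (Vars m) K) ∈ inputs K (Vars m) := Or.inr ⟨0, map_zero _⟩
  -- one block of rows
  let P : Fin r × Fin 3 → Set (MvPolynomial (Vars m) K) := fun t =>
    {z | ∃ i k : Fin m, (i : ℕ) / (m / 2) = t.2 ∧
      z = ∑ j, X (Sum.inl (i, (σ t.1).symm j)) * dirD (L t.1) (gform G t.1) (f j (ρ t.1 k))}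
  have hP : ∀ t, Cost T (P t) (16 * s) := by
    rintro ⟨v, g⟩
    set a : Fin m × Fin m → MvPolynomial (Vars m) K :=
      aMat (b v) (σ v) g (fun i j => X (Sum.inl (i, j))) with ha
    have h1 := (cost_dual (cost_dual (hC.map (phi (L v) a (gform G v)).toRingHom)))
    refine h1.mono ?_ ?_ (by omega)
    · have hin : ∀ z ∈ inputs K (Fin m × Fin m),
          (phi (L v) a (gform G v) z).fst.fst ∈ T ∧ (phi (L v) a (gform G v) z).fst.snd ∈ T ∧
          (phi (L v) a (gform G v) z).snd.fst ∈ T ∧ (phi (L v) a (gform G v) z).snd.snd ∈ T := by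
        rintro _ (⟨p, rfl⟩ | ⟨c, rfl⟩)
        · have e1 : (phi (L v) a (gform G v) (X p)).fst.fst = C (L v p) := by
            simp [phi, MvPolynomial.algebraMap_eq]
          have e2 : (phi (L v) a (gform G v) (X p)).fst.snd = gform G v p := by
            simp [phi]
          have e3 : (phi (L v) a (gform G v) (X p)).snd.fst = a p := by
            simp [phi]
          have e4 : (phi (L v) a (gform G v) (X p)).snd.snd = 0 := by
            simp [phi]
          rw [e1, e2, e3, e4]
          refine ⟨Or.inl (Or.inr ⟨_, rfl⟩), Or.inr ⟨(v, p), rfl⟩, Or.inl ?_, Or.inl h0⟩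
          rw [ha]
          unfold aMat
          split_ifs
          · exact Or.inl ⟨_, rfl⟩
          · exact h0
        · have e1 : phi (L v) a (gform G v) (C c) =
              TrivSqZeroExt.inl (TrivSqZeroExt.inl (C c)) := by
            have : phi (L v) a (gform G v) (C c) =
              algebraMap K (DualNumber (DualNumber (MvPolynomial (Vars m) K))) c := by
              rw [← MvPolynomial.algebraMap_eq, AlgHom.commutes]
            rw [this]
            rfl
          rw [e1]
          exact ⟨Or.inl (Or.inr ⟨c, rfl⟩), Or.inl h0, Or.inl h0, Or.inl h0⟩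
      rintro w (⟨_, (⟨_, ⟨z, hz, rfl⟩, rfl⟩ | ⟨_, ⟨z, hz, rfl⟩, rfl⟩), rfl⟩ |
        ⟨_, (⟨_, ⟨z, hz, rfl⟩, rfl⟩ | ⟨_, ⟨z, hz, rfl⟩, rfl⟩), rfl⟩)
      · exact (hin z hz).1
      · exact (hin z hz).2.2.1
      · exact (hin z hz).2.1
      · exact (hin z hz).2.2.2
    · rintro z ⟨i, k, hig, rfl⟩
      simp only at hig
      have hlt : (i : ℕ) % (m / 2) < m / 2 := Nat.mod_lt _ (by omega)
      set i' : Fin m := ⟨base m (b v) + (i : ℕ) % (m / 2), base_lt hlt⟩ with hi'
      have hnot : ¬ inHalf (b v) i' := not_inHalf hlt _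
      have h2 := phi_selfEntry (L v) a (gform G v) f i' (ρ v k)
        (fun j => (H.1 v (i', j) hnot).1) (fun j => by
          unfold gform
          refine Finset.sum_eq_zero fun q _ => ?_
          rw [(H.1 v (i', j) hnot).2 q]
          simp)
      have h3 : ∀ j, a (i', j) = X (Sum.inl (i, (σ v).symm j)) := by
        intro j
        rw [ha, ← hig]
        exact aMat_apply hm (b v) (σ v) (fun i j => X (Sum.inl (i, j))) i j
      simp only [h3] at h2
      simp only
      rw [← h2]
      exact snd_mem_comps (snd_mem_comps ⟨_, ⟨(i', ρ v k), rfl⟩, rfl⟩)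
  have hPall : Cost T (⋃ t, P t) (Fintype.card (Fin r × Fin 3) * (16 * s)) := Cost.iUnion hP
  -- the outputs
  have hout : Cost (T ∪ ⋃ t, P t) (outMM K m) (Fintype.card (Fin m × Fin m) * r) := by
    refine Cost.range fun t => ?_
    obtain ⟨i, k⟩ := t
    have e1 : entryMM K m i k = ∑ v : Fin r, ∑ j, X (Sum.inl (i, (σ v).symm j)) *
        dirD (L v) (gform G v) (f j (ρ v k)) := by
      unfold entryMM
      have h2 : ∀ j, X (Sum.inl (i, j)) * X (Sum.inr (j, k)) = ∑ v : Fin r,
          X (Sum.inl (i, j)) * dirD (L v) (gform G v) (f (σ v j) (ρ v k)) := by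
        intro j
        rw [← Finset.mul_sum, ← gform_sum H]
      rw [Finset.sum_congr rfl fun j _ => h2 j, Finset.sum_comm]
      refine Finset.sum_congr rfl fun v _ => ?_
      rw [← Equiv.sum_comp (σ v) (fun j => X (Sum.inl (i, (σ v).symm j)) *
        dirD (L v) (gform G v) (f j (ρ v k)))]
      simp
    simp only
    rw [e1]
    have h3 := Cost.sum (T := T ∪ ⋃ t, P t) (Or.inl (Or.inl h0)) (Finset.univ : Finset (Fin r))
      (fun v => ∑ j, X (Sum.inl (i, (σ v).symm j)) * dirD (L v) (gform G v) (f j (ρ v k)))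
      (fun v _ => by
        have hg : (i : ℕ) / (m / 2) < 3 := by
          rw [Nat.div_lt_iff_lt_mul (by omega)]
          have := i.2
          omega
        exact Or.inr (Set.mem_iUnion.2 ⟨(v, ⟨(i : ℕ) / (m / 2), hg⟩), i, k, rfl, rfl⟩))
    rw [Finset.card_univ, Fintype.card_fin] at h3
    exact h3
  refine ((hG.comp (hPall.comp hout)).mono subset_rfl ?_ (le_of_eq ?_))
  · exact Set.subset_union_of_subset_right Set.subset_union_right _
  · simp only [Fintype.card_prod, Fintype.card_fin]
    ring

end Pool.Agent.H239.SP
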