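import Pool.Agent.H239.SP.Part2

set_option autoImplicit false
set_option linter.unusedSectionVars false

namespace Pool.Agent.H239.SP

open Finset MvPolynomial Pool.Agent.H522R2 Pool.Agent.H522R2.Circuit Pool.Agent.W956.KF
  Pool.Agent.H88R3.MM

variable {K : Type} [Field K] {m : ℕ}

/-! ### The rank -/

/-- the directional derivative as a linear form -/
noncomputable def linD (L : Fin m × Fin m → K) (z : MvPolynomial (Fin m × Fin m) K) :
    (Fin m × Fin m → K) →ₗ[K] K :=
  ∑ p, MvPolynomial.eval L (pderiv p z) • LinearMap.proj p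

theorem linD_apply (L : Fin m × Fin m → K) (z : MvPolynomial (Fin m × Fin m) K)
    (b : Fin m × Fin m → K) : linD L z b = dirD L b z := by
  unfold linD dirD
  simp

theorem phi_mul (L a b : Fin m × Fin m → K) (x y : MvPolynomial (Fin m × Fin m) K) :
    (phi L a b (x * y)).snd.snd = MvPolynomial.eval L x * (phi L a b y).snd.snd +
      MvPolynomial.eval L y * (phi L a b x).snd.snd +
      (linD L x a * linD L y b + linD L y a * linD L x b) := by
  have e : ∀ z, (phi L a b z).fst.fst = MvPolynomial.eval L z := fun z => by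
    rw [phi_fst, phB_fst]; rfl
  have e' : ∀ z, (phi L a b z).fst.snd = linD L z b := fun z => by
    rw [phi_fst, phB_snd, linD_apply]
  have e'' : ∀ z, (phi L a b z).snd.fst = linD L z a := fun z => by
    rw [phi_snd_fst, linD_apply]
  rw [map_mul, TrivSqZeroExt.snd_mul, TrivSqZeroExt.snd_add]
  simp only [smul_eq_mul, MulOpposite.smul_eq_mul_unop, MulOpposite.unop_op,
    TrivSqZeroExt.snd_mul, e, e', e'']
  ring

theorem reach_rank (L : Fin m × Fin m → K) {s : ℕ} {T' : Set (MvPolynomial (Fin m × Fin m) K)}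
    (h : Reach (inputs K (Fin m × Fin m)) s T') :
    ∃ u w : ℕ → ((Fin m × Fin m → K) →ₗ[K] K), ∀ z ∈ T', ∃ α : ℕ → K, ∀ a b,
      (phi L a b z).snd.snd = ∑ t ∈ range s, α t * (u t a * w t b + w t a * u t b) := by
  induction h with
  | refl =>
    refine ⟨0, 0, ?_⟩
    rintro _ (⟨p, rfl⟩ | ⟨c, rfl⟩)
    · exact ⟨0, fun a b => by simp [phi]⟩
    · refine ⟨0, fun a b => ?_⟩
      have : phi L a b (C c) = algebraMap K (DualNumber (DualNumber K)) c := by
        rw [← MvPolynomial.algebraMap_eq, AlgHom.commutes]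
      rw [this]
      simp [TrivSqZeroExt.algebraMap_eq_inl']
  | @add s T' x y h hx hy ih =>
    obtain ⟨u, w, ih⟩ := ih
    refine ⟨u, w, ?_⟩
    have hold : ∀ z ∈ T', ∃ α : ℕ → K, ∀ a b, (phi L a b z).snd.snd =
        ∑ t ∈ range (s + 1), α t * (u t a * w t b + w t a * u t b) := by
      intro z hz
      obtain ⟨α, hα⟩ := ih z hz
      refine ⟨fun t => if t = s then 0 else α t, fun a b => ?_⟩
      rw [hα, sum_range_succ]
      beta_reduce
      rw [if_pos rfl, zero_mul, add_zero]
      refine Finset.sum_congr rfl fun t ht => ?_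
      rw [if_neg (by have := Finset.mem_range.mp ht; omega)]
    rintro z (rfl | hz)
    · obtain ⟨α, hα⟩ := hold x hx
      obtain ⟨β, hβ⟩ := hold y hy
      refine ⟨α + β, fun a b => ?_⟩
      rw [map_add, TrivSqZeroExt.snd_add, TrivSqZeroExt.snd_add, hα, hβ,
        ← Finset.sum_add_distrib]
      refine Finset.sum_congr rfl fun t _ => ?_
      rw [Pi.add_apply]
      ring
    · exact hold z hz
  | @mul s T' x y h hx hy ih =>
    obtain ⟨u, w, ih⟩ := ih
    refine ⟨fun t => if t = s then linD L x else u t, fun t => if t = s then linD L y else w t, ?_⟩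
    rintro z (rfl | hz)
    · obtain ⟨α, hα⟩ := ih x hx
      obtain ⟨β, hβ⟩ := ih y hy
      refine ⟨fun t => if t = s then 1 else
        MvPolynomial.eval L x * β t + MvPolynomial.eval L y * α t, fun a b => ?_⟩
      rw [phi_mul, hα, hβ, sum_range_succ]
      beta_reduce
      rw [if_pos rfl, if_pos rfl, if_pos rfl, one_mul,
        Finset.mul_sum, Finset.mul_sum, ← Finset.sum_add_distrib]
      congr 1
      refine Finset.sum_congr rfl fun t ht => ?_
      have ht' : t ≠ s := by have := Finset.mem_range.mp ht; omega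
      rw [if_neg ht', if_neg ht', if_neg ht']
      ring
    · obtain ⟨α, hα⟩ := ih z hz
      refine ⟨fun t => if t = s then 0 else α t, fun a b => ?_⟩
      rw [hα, sum_range_succ]
      beta_reduce
      rw [if_pos rfl, zero_mul, add_zero]
      refine Finset.sum_congr rfl fun t ht => ?_
      have ht' : t ≠ s := by have := Finset.mem_range.mp ht; omega
      rw [if_neg ht', if_neg ht', if_neg ht']

theorem rankLE_of_fintype {J : Type} [Fintype J] (U V W : J → Matrix (Fin m) (Fin m) K)
    (h : ∀ (i i' j j' k k' : Fin m), ∑ l, U l i j * V l j' k * W l i' k' =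
      if i = i' ∧ j = j' ∧ k = k' then 1 else 0) : RankLE K m m m (Fintype.card J) := by
  classical
  let e : Fin (Fintype.card J) ≃ J := (Fintype.equivFin J).symm
  refine ⟨fun l => U (e l), fun l => V (e l), fun l => W (e l), fun i i' j j' k k' => ?_⟩
  rw [← h i i' j j' k k']
  exact Equiv.sum_comp e fun l => U l i j * V l j' k * W l i' k'

/-- **Products of independent matrices from `A f(A)`: rank.** -/
theorem core_rank (hm : 2 ≤ m) {r : ℕ} {f : Fin m → Fin m → MvPolynomial (Fin m × Fin m) K}
    {b : Fin r → Bool} {σ ρ : Fin r → Equiv.Perm (Fin m)} {L : Fin r → Fin m × Fin m → K}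
    {G : Fin r → Fin m × Fin m → Fin m × Fin m → K} (H : Recovers f b σ ρ L G) {s : ℕ}
    (hC : Cost (inputs K (Fin m × Fin m)) (selfOut f) s) : trank K m m m ≤ 6 * r * s := by
  classical
  obtain ⟨s', hs', T', hT', hsub⟩ := hC
  choose u w huw using fun v => reach_rank (L v) hT'
  have hout : ∀ v (i k : Fin m), ∃ α : ℕ → K, ∀ a b,
      (phi (L v) a b (selfEntry f i k)).snd.snd =
        ∑ t ∈ range s', α t * (u v t a * w v t b + w v t a * u v t b) :=
    fun v i k => huw v _ (hsub ⟨(i, k), rfl⟩)
  choose α hα using hout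
  have hpos : 0 < m / 2 := by omega
  have hlt : ∀ i : Fin m, (i : ℕ) % (m / 2) < m / 2 := fun i => Nat.mod_lt _ hpos
  let row : Bool → Fin m → Fin m := fun b i => ⟨base m b + (i : ℕ) % (m / 2), base_lt (hlt i)⟩
  have hg3 : ∀ i : Fin m, (i : ℕ) / (m / 2) < 3 := fun i => by
    rw [Nat.div_lt_iff_lt_mul hpos]
    have := i.2
    omega
  let av : Fin r → Fin m → Fin m → (Fin m × Fin m → K) := fun v i j =>
    Pi.single (row (b v) i, σ v j) 1
  let bv : Fin r → Fin m → Fin m → (Fin m × Fin m → K) := fun v j k p => G v p (j, k)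
  have key := rankLE_of_fintype (K := K) (m := m) (J := Fin r × Fin 3 × Fin s' × Fin 2)
    (fun l => Matrix.of fun i j => if (i : ℕ) / (m / 2) = l.2.1 then
      ![u l.1 l.2.2.1 (av l.1 i j), w l.1 l.2.2.1 (av l.1 i j)] l.2.2.2 else 0)
    (fun l => Matrix.of fun j k =>
      ![w l.1 l.2.2.1 (bv l.1 j k), u l.1 l.2.2.1 (bv l.1 j k)] l.2.2.2)
    (fun l => Matrix.of fun i k => if (i : ℕ) / (m / 2) = l.2.1 then
      α l.1 (row (b l.1) i) (ρ l.1 k) l.2.2.1 else 0) ?_
  · have hcard : Fintype.card (Fin r × Fin 3 × Fin s' × Fin 2) = 6 * r * s' := by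
      simp only [Fintype.card_prod, Fintype.card_fin]
      ring
    rw [hcard] at key
    exact (Nat.sInf_le key).trans (Nat.mul_le_mul_left _ hs')
  intro i i' j j' k k'
  simp only [Matrix.of_apply]
  rw [Fintype.sum_prod_type]
  simp only [Fintype.sum_prod_type]
  have hinner : ∀ (v : Fin r) (g : Fin 3), ∑ t : Fin s', ∑ e : Fin 2,
      (if (i : ℕ) / (m / 2) = g then ![u v t (av v i j), w v t (av v i j)] e else 0) *
      ![w v t (bv v j' k), u v t (bv v j' k)] e *
      (if (i' : ℕ) / (m / 2) = g then α v (row (b v) i') (ρ v k') t else 0) =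
      if (i : ℕ) / (m / 2) = g ∧ (i' : ℕ) / (m / 2) = g then
        (phi (L v) (av v i j) (bv v j' k) (selfEntry f (row (b v) i') (ρ v k'))).snd.snd
        else 0 := by
    intro v g
    by_cases h1 : (i : ℕ) / (m / 2) = g
    · by_cases h2 : (i' : ℕ) / (m / 2) = g
      · rw [if_pos ⟨h1, h2⟩, hα, Finset.sum_range]
        refine Finset.sum_congr rfl fun t _ => ?_
        rw [Fin.sum_univ_two, if_pos h1, if_pos h1, if_pos h2]
        simp only [Matrix.cons_val_zero, Matrix.cons_val_one]
        ring
      · rw [if_neg (fun h => h2 h.2)]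
        refine Finset.sum_eq_zero fun t _ => Finset.sum_eq_zero fun e _ => ?_
        rw [if_neg h2, mul_zero]
    · rw [if_neg (fun h => h1 h.1)]
      refine Finset.sum_eq_zero fun t _ => Finset.sum_eq_zero fun e _ => ?_
      rw [if_neg h1, zero_mul, zero_mul]
  simp only [hinner]
  have hval : ∀ v : Fin r,
      (phi (L v) (av v i j) (bv v j' k) (selfEntry f (row (b v) i') (ρ v k'))).snd.snd =
      if (i : ℕ) % (m / 2) = (i' : ℕ) % (m / 2) then
        dirD (L v) (bv v j' k) (f (σ v j) (ρ v k')) else 0 := by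
    intro v
    have hnot : ¬ inHalf (b v) (row (b v) i') := not_inHalf (hlt i') _
    rw [phi_selfEntry _ _ _ _ _ _ (fun j => (H.1 v (_, j) hnot).1)
      (fun j => (H.1 v (_, j) hnot).2 _)]
    by_cases h : (i : ℕ) % (m / 2) = (i' : ℕ) % (m / 2)
    · have hrow : row (b v) i = row (b v) i' := by
        apply Fin.ext
        show base m (b v) + (i : ℕ) % (m / 2) = base m (b v) + (i' : ℕ) % (m / 2)
        rw [h]
      rw [if_pos h, Finset.sum_eq_single (σ v j)]
      · have : av v i j (row (b v) i', σ v j) = 1 := by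
          simp only [av]
          rw [Pi.single_apply, if_pos]
          rw [hrow]
        rw [this, one_mul]
      · intro j₁ _ hj₁
        have : av v i j (row (b v) i', j₁) = 0 := by
          simp only [av]
          rw [Pi.single_apply, if_neg]
          intro h3
          exact hj₁ (Prod.ext_iff.mp h3).2
        rw [this, zero_mul]
      · simp
    · rw [if_neg h]
      refine Finset.sum_eq_zero fun j₁ _ => ?_
      have : av v i j (row (b v) i', j₁) = 0 := by
        simp only [av]
        rw [Pi.single_apply, if_neg]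
        intro h3
        have h4 := congrArg Fin.val (Prod.ext_iff.mp h3).1
        simp only [row] at h4
        omega
      rw [this, zero_mul]
  simp only [hval]
  have hG : ∑ v, dirD (L v) (bv v j' k) (f (σ v j) (ρ v k')) =
      if (j', k) = (j, k') then 1 else 0 := by
    rw [← H.2 j k' (j', k)]
    refine Finset.sum_congr rfl fun v _ => ?_
    unfold dirD
    rfl
  have hg : ∀ v : Fin r, ∑ g : Fin 3, (if (i : ℕ) / (m / 2) = g ∧ (i' : ℕ) / (m / 2) = g then
      (if (i : ℕ) % (m / 2) = (i' : ℕ) % (m / 2) then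
        dirD (L v) (bv v j' k) (f (σ v j) (ρ v k')) else 0) else 0) =
      if i = i' then dirD (L v) (bv v j' k) (f (σ v j) (ρ v k')) else 0 := by
    intro v
    by_cases hi : i = i'
    · subst hi
      rw [if_pos rfl, Finset.sum_eq_single (⟨(i : ℕ) / (m / 2), hg3 i⟩ : Fin 3)]
      · rw [if_pos ⟨rfl, rfl⟩, if_pos rfl]
      · intro g _ hg
        rw [if_neg]
        rintro ⟨h1, -⟩
        exact hg (Fin.ext h1.symm)
      · simp
    · rw [if_neg hi]
      refine Finset.sum_eq_zero fun g _ => ?_
      by_cases h1 : (i : ℕ) / (m / 2) = g ∧ (i' : ℕ) / (m / 2) = g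
      · rw [if_pos h1, if_neg]
        intro h2
        apply hi
        apply Fin.ext
        rw [← Nat.div_add_mod (i : ℕ) (m / 2), ← Nat.div_add_mod (i' : ℕ) (m / 2), h1.1, h1.2, h2]
      · rw [if_neg h1]
  simp only [hg]
  by_cases hi : i = i'
  · simp only [if_pos hi]
    rw [hG]
    simp only [hi, true_and, Prod.mk.injEq]
    refine if_congr ?_ rfl rfl
    constructor
    · rintro ⟨h1, h2⟩; exact ⟨h1.symm, h2⟩
    · rintro ⟨h1, h2⟩; exact ⟨h1.symm, h2⟩
  · simp only [if_neg hi, Finset.sum_const_zero, hi, false_and, if_false]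

end Pool.Agent.H239.SP
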