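import Pool.Agent.H239.SP.Part3

set_option autoImplicit false
set_option linter.unusedSectionVars false

namespace Pool.Agent.H239.SP

open Finset MvPolynomial Pool.Agent.H522R2 Pool.Agent.H522R2.Circuit Pool.Agent.W956.KF
  Pool.Agent.H88R3.MM

variable {K : Type} [Field K] {m : ℕ}

theorem inHalf_true (i : Fin m) : inHalf true i ↔ m / 2 ≤ (i : ℕ) := by simp [inHalf]

theorem inHalf_false (i : Fin m) : inHalf false i ↔ (i : ℕ) < m / 2 := by simp [inHalf]

/-- exactly one half contains a row -/
theorem sum_halves {R : Type} [AddCommMonoid R] (i : Fin m) (x : R) :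
    (∑ e : Fin 2, if inHalf (![true, false] e) i then x else 0) = x := by
  rw [Fin.sum_univ_two]
  show (if inHalf true i then x else 0) + (if inHalf false i then x else 0) = x
  by_cases h : m / 2 ≤ (i : ℕ)
  · rw [if_pos ((inHalf_true i).2 h), if_neg (by rw [inHalf_false]; omega), add_zero]
  · rw [if_neg (by rw [inHalf_true]; exact h), if_pos (by rw [inHalf_false]; omega), zero_add]

/-! ### Linear maps -/

/-- the entries of `τ(A)` for a linear map `τ` and the generic matrix `A` -/
noncomputable def linMat (τ : (Fin m × Fin m → K) →ₗ[K] (Fin m × Fin m → K)) (j k : Fin m) :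
    MvPolynomial (Fin m × Fin m) K :=
  ∑ p, C (τ (Pi.single p 1) (j, k)) * X p

theorem recovers_linear (τ : (Fin m × Fin m → K) ≃ₗ[K] (Fin m × Fin m → K)) :
    Recovers (linMat (τ : (Fin m × Fin m → K) →ₗ[K] (Fin m × Fin m → K)))
      (r := 2) ![true, false] (fun _ => 1) (fun _ => 1) (fun _ _ => 0)
      (fun v p q => if inHalf (![true, false] v) p.1 then τ.symm (Pi.single q 1) p else 0) := by
  classical
  refine ⟨fun v p h => ⟨rfl, fun q => if_neg h⟩, fun j k q => ?_⟩
  have h1 : ∀ p : Fin m × Fin m, MvPolynomial.eval (fun _ : Fin m × Fin m => (0 : K))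
      (pderiv p (linMat (τ : (Fin m × Fin m → K) →ₗ[K] (Fin m × Fin m → K)) j k)) =
      τ (Pi.single p 1) (j, k) := by
    intro p
    unfold linMat
    rw [map_sum, map_sum, Finset.sum_eq_single p]
    · simp [pderiv_X]
    · intro p' _ hp'
      simp [pderiv_X, hp']
    · simp
  simp only [Equiv.Perm.coe_one, id_eq, h1]
  rw [Finset.sum_comm]
  have h2 : ∀ p : Fin m × Fin m, ∑ v : Fin 2, τ (Pi.single p 1) (j, k) *
      (if inHalf (![true, false] v) p.1 then τ.symm (Pi.single q 1) p else 0) =
      τ (Pi.single p 1) (j, k) * τ.symm (Pi.single q 1) p := by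
    intro p
    rw [← Finset.mul_sum, sum_halves]
  rw [Finset.sum_congr rfl fun p _ => h2 p]
  have h3 : τ (τ.symm (Pi.single q 1)) (j, k) =
      ∑ p, τ (Pi.single p 1) (j, k) * τ.symm (Pi.single q 1) p := by
    have h4 : τ.symm (Pi.single q 1) = ∑ p, (τ.symm (Pi.single q (1 : K)) p) •
        (Pi.single p (1 : K) : Fin m × Fin m → K) := by
      funext p'
      simp [Finset.sum_apply, Pi.single_apply]
    conv_lhs => rw [h4]
    rw [map_sum, Finset.sum_apply]
    refine Finset.sum_congr rfl fun p _ => ?_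
    rw [map_smul, Pi.smul_apply, smul_eq_mul, mul_comm]
  rw [← h3, LinearEquiv.apply_symm_apply, Pi.single_apply]
  simp only [eq_comm]

theorem cost_gforms_linear (τ : (Fin m × Fin m → K) ≃ₗ[K] (Fin m × Fin m → K)) {c : ℕ}
    (h : Cost (inputs K (Fin m × Fin m)) (Set.range fun t : Fin m × Fin m =>
      linMat (τ.symm : (Fin m × Fin m → K) →ₗ[K] (Fin m × Fin m → K)) t.1 t.2) c) :
    Cost (inputs K (Vars m)) (Set.range fun t : Fin 2 × (Fin m × Fin m) =>
      gform (fun v p q => if inHalf (![true, false] v) p.1 then τ.symm (Pi.single q 1) p else 0)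
        t.1 t.2) c := by
  classical
  let φ : MvPolynomial (Fin m × Fin m) K →+* MvPolynomial (Vars m) K :=
    MvPolynomial.eval₂Hom MvPolynomial.C (fun x => MvPolynomial.X (Sum.inr x))
  have h1 : Cost (inputs K (Vars m) : Set (MvPolynomial (Vars m) K)) (φ '' (Set.range
      fun t : Fin m × Fin m =>
      linMat (τ.symm : (Fin m × Fin m → K) →ₗ[K] (Fin m × Fin m → K)) t.1 t.2)) c := by
    refine (h.map φ).mono ?_ subset_rfl le_rfl
    rintro _ ⟨_, ⟨v, rfl⟩ | ⟨c, rfl⟩, rfl⟩
    · exact Or.inl ⟨.inr v, by simp [φ]⟩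
    · exact Or.inr ⟨c, by simp [φ]⟩
  have h2 : Cost (inputs K (Vars m) ∪ (φ '' (Set.range fun t : Fin m × Fin m =>
      linMat (τ.symm : (Fin m × Fin m → K) →ₗ[K] (Fin m × Fin m → K)) t.1 t.2)))
      (Set.range fun t : Fin 2 × (Fin m × Fin m) =>
      gform (fun v p q => if inHalf (![true, false] v) p.1 then τ.symm (Pi.single q 1) p else 0)
        t.1 t.2) 0 := by
    refine Cost.of_subset ?_ _
    rintro _ ⟨⟨v, p⟩, rfl⟩
    by_cases hp : inHalf (![true, false] v) p.1
    · refine Or.inr ⟨_, ⟨p, rfl⟩, ?_⟩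
      unfold linMat gform
      rw [map_sum]
      refine Finset.sum_congr rfl fun q _ => ?_
      simp only [if_pos hp]
      rw [map_mul]
      simp [φ]
    · refine Or.inl (Or.inr ⟨0, ?_⟩)
      unfold gform
      rw [map_zero]
      symm
      refine Finset.sum_eq_zero fun q _ => ?_
      simp [if_neg hp]
  refine (h1.comp h2).mono subset_rfl Set.subset_union_right (by omega)

/-! ### Covering the positions by shifts of a set of positions -/

theorem exists_shift [NeZero m] (Q U : Finset (Fin m × Fin m)) :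
    ∃ a : Fin m × Fin m, (U.filter fun u => u + a ∉ Q).card * m ^ 2 ≤
      U.card * (m ^ 2 - Q.card) := by
  classical
  by_contra hcon
  push Not at hcon
  have h1 : ∑ a : Fin m × Fin m, (U.filter fun u => u + a ∉ Q).card =
      U.card * (m ^ 2 - Q.card) := by
    have h2 : ∑ a : Fin m × Fin m, (U.filter fun u => u + a ∉ Q).card =
        ∑ u ∈ U, (Finset.univ.filter fun a : Fin m × Fin m => u + a ∉ Q).card := by
      simp only [Finset.card_filter]
      exact Finset.sum_comm
    rw [h2]
    have h3 : ∀ u : Fin m × Fin m, (Finset.univ.filter fun a : Fin m × Fin m =>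
        u + a ∉ Q).card = m ^ 2 - Q.card := by
      intro u
      have h4 : (Finset.univ.filter fun a : Fin m × Fin m => u + a ∉ Q) =
          (Finset.univ \ Q).map (Equiv.subRight u).toEmbedding := by
        ext a
        simp only [Finset.mem_filter, Finset.mem_univ, true_and, Finset.mem_map_equiv,
          Finset.mem_sdiff]
        simp [add_comm]
      rw [h4, Finset.card_map, Finset.card_sdiff_of_subset (Finset.subset_univ _),
        Finset.card_univ, Fintype.card_prod, Fintype.card_fin, pow_two]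
    simp only [h3, Finset.sum_const, smul_eq_mul]
  have h5 : ∑ _a : Fin m × Fin m, U.card * (m ^ 2 - Q.card) <
      ∑ a : Fin m × Fin m, (U.filter fun u => u + a ∉ Q).card * m ^ 2 :=
    Finset.sum_lt_sum_of_nonempty ⟨0, Finset.mem_univ _⟩ fun a _ => hcon a
  have h6 : ∑ a : Fin m × Fin m, (U.filter fun u => u + a ∉ Q).card * m ^ 2 =
      m ^ 2 * (U.card * (m ^ 2 - Q.card)) := by
    rw [← Finset.sum_mul, h1, mul_comm]
  rw [h6, Finset.sum_const, Finset.card_univ, Fintype.card_prod,
    Fintype.card_fin, smul_eq_mul, ← pow_two] at h5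
  exact lt_irrefl _ h5

theorem exists_cover [NeZero m] (Q : Finset (Fin m × Fin m)) (N : ℕ) :
    ∃ a : Fin N → Fin m × Fin m,
      (Finset.univ.filter fun u : Fin m × Fin m => ∀ t, u + a t ∉ Q).card * (m ^ 2) ^ N ≤
        m ^ 2 * (m ^ 2 - Q.card) ^ N := by
  classical
  induction N with
  | zero =>
    refine ⟨fun t => t.elim0, ?_⟩
    rw [pow_zero, pow_zero, mul_one, mul_one]
    refine (Finset.card_filter_le _ _).trans (le_of_eq ?_)
    rw [Finset.card_univ, Fintype.card_prod, Fintype.card_fin, pow_two]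
  | succ N ih =>
    obtain ⟨a, ha⟩ := ih
    obtain ⟨a', ha'⟩ := exists_shift Q
      (Finset.univ.filter fun u : Fin m × Fin m => ∀ t, u + a t ∉ Q)
    refine ⟨Fin.snoc a a', ?_⟩
    have h1 : (Finset.univ.filter fun u : Fin m × Fin m =>
        ∀ t : Fin (N + 1), u + (Fin.snoc a a' : Fin (N + 1) → Fin m × Fin m) t ∉ Q) =
        (Finset.univ.filter fun u : Fin m × Fin m => ∀ t, u + a t ∉ Q).filter
          fun u => u + a' ∉ Q := by
      ext u
      simp only [Finset.mem_filter, Finset.mem_univ, true_and]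
      constructor
      · intro h
        refine ⟨fun t => ?_, ?_⟩
        · have := h t.castSucc
          rwa [Fin.snoc_castSucc] at this
        · have := h (Fin.last N)
          rwa [Fin.snoc_last] at this
      · rintro ⟨h1, h2⟩ t
        refine Fin.lastCases ?_ (fun t => ?_) t
        · rwa [Fin.snoc_last]
        · rw [Fin.snoc_castSucc]
          exact h1 t
    rw [h1, pow_succ, pow_succ]
    set x := ((Finset.univ.filter fun u : Fin m × Fin m => ∀ t, u + a t ∉ Q).filter
          fun u => u + a' ∉ Q).card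
    set y := (Finset.univ.filter fun u : Fin m × Fin m => ∀ t, u + a t ∉ Q).card
    calc x * ((m ^ 2) ^ N * m ^ 2) = (x * m ^ 2) * (m ^ 2) ^ N := by ring
      _ ≤ (y * (m ^ 2 - Q.card)) * (m ^ 2) ^ N := Nat.mul_le_mul_right _ ha'
      _ = (y * (m ^ 2) ^ N) * (m ^ 2 - Q.card) := by ring
      _ ≤ (m ^ 2 * (m ^ 2 - Q.card) ^ N) * (m ^ 2 - Q.card) := Nat.mul_le_mul_right _ ha
      _ = _ := by ring

/-- enough shifts cover everything -/
theorem exists_perms (hm : 1 ≤ m) (Q : Finset (Fin m × Fin m)) {N : ℕ}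
    (hN : m ^ 2 * (m ^ 2 - Q.card) ^ N < (m ^ 2) ^ N) :
    ∃ σ ρ : Fin N → Equiv.Perm (Fin m), ∀ j k, ∃ t, (σ t j, ρ t k) ∈ Q := by
  classical
  have : NeZero m := ⟨by omega⟩
  obtain ⟨a, ha⟩ := exists_cover Q N
  refine ⟨fun t => Equiv.addRight (a t).1, fun t => Equiv.addRight (a t).2, fun j k => ?_⟩
  by_contra hcon
  push Not at hcon
  have h1 : 1 ≤ (Finset.univ.filter fun u : Fin m × Fin m => ∀ t, u + a t ∉ Q).card :=
    Finset.card_pos.mpr ⟨(j, k), by
      simp only [Finset.mem_filter, Finset.mem_univ, true_and]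
      exact fun t => hcon t⟩
  have h2 : 1 * (m ^ 2) ^ N ≤ m ^ 2 * (m ^ 2 - Q.card) ^ N :=
    (Nat.mul_le_mul_right _ h1).trans ha
  omega

end Pool.Agent.H239.SP
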