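import Pool.Agent.H239.SP.Part4

set_option autoImplicit false
set_option linter.unusedSectionVars false

namespace Pool.Agent.H239.SP

open Finset MvPolynomial Pool.Agent.H522R2 Pool.Agent.H522R2.Circuit Pool.Agent.W956.KF
  Pool.Agent.H88R3.MM

variable {K : Type} [Field K] {m : ℕ}

/-! ### Rearrangements and entrywise functions -/

open Classical in
/-- The matrix `f(A)` whose entry at the position `x ∈ Q` is the polynomial `t x` evaluated at the
entry of `A` at the position `π x`; the entries outside `Q` are zero. -/
noncomputable def entryMat (Q : Finset (Fin m × Fin m)) (π : Fin m × Fin m → Fin m × Fin m)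
    (t : Fin m × Fin m → Polynomial K) (j k : Fin m) : MvPolynomial (Fin m × Fin m) K :=
  if (j, k) ∈ Q then Polynomial.aeval (X (π (j, k)) : MvPolynomial (Fin m × Fin m) K) (t (j, k))
    else 0

theorem eval_pderiv_aeval (P : Polynomial K) (x p : Fin m × Fin m) (L : Fin m × Fin m → K) :
    MvPolynomial.eval L (pderiv p (Polynomial.aeval (X x : MvPolynomial (Fin m × Fin m) K) P)) =
      if p = x then (Polynomial.derivative P).eval (L x) else 0 := by
  have h1 : ∀ R : Polynomial K, MvPolynomial.eval L
      (Polynomial.aeval (X x : MvPolynomial (Fin m × Fin m) K) R) = R.eval (L x) := by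
    intro R
    induction R using Polynomial.induction_on' with
    | add p q hp hq => rw [map_add, map_add, hp, hq, Polynomial.eval_add]
    | monomial k a =>
      rw [Polynomial.aeval_monomial, map_mul, map_pow, eval_X, Polynomial.eval_monomial,
        MvPolynomial.algebraMap_eq, eval_C]
  have h2 : pderiv p (Polynomial.aeval (X x : MvPolynomial (Fin m × Fin m) K) P) =
      Polynomial.aeval (X x : MvPolynomial (Fin m × Fin m) K) (Polynomial.derivative P) *
        pderiv p (X x) := by
    induction P using Polynomial.induction_on' with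
    | add q r hq hr => rw [map_add, map_add, hq, hr, Polynomial.derivative_add, map_add, add_mul]
    | monomial k a =>
      rw [Polynomial.aeval_monomial, Polynomial.derivative_monomial, Polynomial.aeval_monomial,
        MvPolynomial.algebraMap_eq, Derivation.leibniz, pderiv_C, smul_zero, add_zero,
        Derivation.leibniz_pow, smul_eq_mul, smul_eq_mul, nsmul_eq_mul, map_mul]
      rw [map_natCast]
      ring
  rw [h2, map_mul, h1, pderiv_X]
  by_cases h : p = x
  · rw [if_pos h, h]
    simp
  · rw [if_neg h]
    simp [Pi.single_apply, Ne.symm h]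

section entry

variable (Q : Finset (Fin m × Fin m)) (π : Fin m × Fin m → Fin m × Fin m)
  (t : Fin m × Fin m → Polynomial K) (lam : Fin m × Fin m → K) {N : ℕ}
  (σ ρ : Fin N → Equiv.Perm (Fin m)) (u : Fin m × Fin m → Fin N)

/-- the position of `Q` which covers the position `q` -/
def pos (q : Fin m × Fin m) : Fin m × Fin m := (σ (u q) q.1, ρ (u q) q.2)

open Classical in
/-- directions -/
noncomputable def GG (v : Fin (N * 2)) (p q : Fin m × Fin m) : K :=
  if (finProdFinEquiv.symm v).1 = u q ∧ p = π (pos σ ρ u q) ∧
      inHalf (![true, false] (finProdFinEquiv.symm v).2) p.1 then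
    ((Polynomial.derivative (t (pos σ ρ u q))).eval (lam (pos σ ρ u q)))⁻¹ else 0

open Classical in
/-- points -/
noncomputable def LL (v : Fin (N * 2)) (p : Fin m × Fin m) : K :=
  if h : (∃ x ∈ Q, π x = p) ∧ inHalf (![true, false] (finProdFinEquiv.symm v).2) p.1 then
    lam h.1.choose else 0

theorem LL_apply (hπ : Set.InjOn π Q) {x : Fin m × Fin m} (hx : x ∈ Q) (v : Fin (N * 2))
    (h : inHalf (![true, false] (finProdFinEquiv.symm v).2) (π x).1) :
    LL Q π lam v (π x) = lam x := by
  have h1 : (∃ x' ∈ Q, π x' = π x) ∧
      inHalf (![true, false] (finProdFinEquiv.symm v).2) (π x).1 := ⟨⟨x, hx, rfl⟩, h⟩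
  unfold LL
  rw [dif_pos h1]
  congr 1
  exact hπ h1.1.choose_spec.1 hx h1.1.choose_spec.2

theorem recovers_entry (hπ : Set.InjOn π Q)
    (ht : ∀ x ∈ Q, (Polynomial.derivative (t x)).eval (lam x) ≠ 0)
    (hu : ∀ q, pos σ ρ u q ∈ Q) :
    Recovers (entryMat Q π t) (r := N * 2) (fun v => ![true, false] (finProdFinEquiv.symm v).2)
      (fun v => σ (finProdFinEquiv.symm v).1) (fun v => ρ (finProdFinEquiv.symm v).1)
      (LL Q π lam) (GG π t lam σ ρ u) := by
  classical
  refine ⟨fun v p h => ⟨?_, fun q => ?_⟩, fun j k q => ?_⟩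
  · unfold LL
    rw [dif_neg (fun h' => h h'.2)]
  · unfold GG
    rw [if_neg (fun h' => h h'.2.2)]
  -- the sum
  set d := (Polynomial.derivative (t (pos σ ρ u q))).eval (lam (pos σ ρ u q)) with hd
  have hd0 : d ≠ 0 := ht _ (hu q)
  have h1 : ∀ v : Fin (N * 2), ∑ p, MvPolynomial.eval (LL Q π lam v) (pderiv p
      (entryMat Q π t (σ (finProdFinEquiv.symm v).1 j) (ρ (finProdFinEquiv.symm v).1 k))) *
      GG π t lam σ ρ u v p q =
      if (finProdFinEquiv.symm v).1 = u q then
        (if inHalf (![true, false] (finProdFinEquiv.symm v).2) (π (pos σ ρ u q)).1 then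
          (if q = (j, k) then 1 else 0) else 0) else 0 := by
    intro v
    by_cases hv : (finProdFinEquiv.symm v).1 = u q
    · rw [if_pos hv]
      by_cases hh : inHalf (![true, false] (finProdFinEquiv.symm v).2) (π (pos σ ρ u q)).1
      · rw [if_pos hh, Finset.sum_eq_single (π (pos σ ρ u q))]
        · have hG : GG π t lam σ ρ u v (π (pos σ ρ u q)) q = d⁻¹ := by
            unfold GG
            rw [if_pos ⟨hv, rfl, hh⟩]
          rw [hG]
          by_cases hq : q = (j, k)
          · subst hq
            rw [if_pos rfl]
            have hx : (σ (finProdFinEquiv.symm v).1 j, ρ (finProdFinEquiv.symm v).1 k) =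
                pos σ ρ u (j, k) := by
              unfold pos
              rw [hv]
            unfold entryMat
            rw [hx, if_pos (hu _), eval_pderiv_aeval, if_pos rfl,
              LL_apply Q π lam hπ (hu _) v hh]
            exact mul_inv_cancel₀ hd0
          · rw [if_neg hq]
            have hzero : MvPolynomial.eval (LL Q π lam v) (pderiv (π (pos σ ρ u q))
                (entryMat Q π t (σ (finProdFinEquiv.symm v).1 j)
                  (ρ (finProdFinEquiv.symm v).1 k))) = 0 := by
              unfold entryMat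
              by_cases hQ : (σ (finProdFinEquiv.symm v).1 j, ρ (finProdFinEquiv.symm v).1 k) ∈ Q
              · rw [if_pos hQ, eval_pderiv_aeval, if_neg]
                intro h3
                have h4 := hπ (hu q) hQ h3
                unfold pos at h4
                rw [hv] at h4
                apply hq
                have h5 := (Prod.ext_iff.mp h4).1
                have h6 := (Prod.ext_iff.mp h4).2
                exact Prod.ext ((σ (u q)).injective h5) ((ρ (u q)).injective h6)
              · rw [if_neg hQ, map_zero, map_zero]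
            rw [hzero, zero_mul]
        · intro p _ hp
          have hG : GG π t lam σ ρ u v p q = 0 := by
            unfold GG
            rw [if_neg (fun h => hp h.2.1)]
          rw [hG, mul_zero]
        · simp
      · rw [if_neg hh]
        refine Finset.sum_eq_zero fun p _ => ?_
        have hG : GG π t lam σ ρ u v p q = 0 := by
          unfold GG
          rw [if_neg]
          rintro ⟨-, rfl, h4⟩
          exact hh h4
        rw [hG, mul_zero]
    · rw [if_neg hv]
      refine Finset.sum_eq_zero fun p _ => ?_
      have hG : GG π t lam σ ρ u v p q = 0 := by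
        unfold GG
        rw [if_neg (fun h => hv h.1)]
      rw [hG, mul_zero]
  rw [Finset.sum_congr rfl fun v _ => h1 v]
  rw [Equiv.sum_comp finProdFinEquiv.symm (fun w : Fin N × Fin 2 => if w.1 = u q then
        (if inHalf (![true, false] w.2) (π (pos σ ρ u q)).1 then
          (if q = (j, k) then (1 : K) else 0) else 0) else 0), Fintype.sum_prod_type]
  rw [Finset.sum_eq_single (u q)]
  · simp only [if_true]
    exact sum_halves _ _
  · intro w _ hw
    simp [hw]
  · simp

theorem cost_gforms_entry (hπ : Set.InjOn π Q) (hu : ∀ q, pos σ ρ u q ∈ Q) :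
    Cost (inputs K (Vars m)) (Set.range fun w : Fin (N * 2) × (Fin m × Fin m) =>
      gform (GG π t lam σ ρ u) w.1 w.2) (N * 2 * m ^ 2) := by
  classical
  have h1 : ∀ w : Fin (N * 2) × (Fin m × Fin m), Cost (inputs K (Vars m))
      {gform (GG π t lam σ ρ u) w.1 w.2} 1 := by
    rintro ⟨v, p⟩
    simp only
    by_cases h : ∃ q, GG π t lam σ ρ u v p q ≠ 0
    · obtain ⟨q, hq⟩ := h
      have hcond : ∀ q', GG π t lam σ ρ u v p q' ≠ 0 → (finProdFinEquiv.symm v).1 = u q' ∧
          p = π (pos σ ρ u q') := by
        intro q' hq'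
        unfold GG at hq'
        by_contra hcon
        apply hq'
        rw [if_neg]
        rintro ⟨h1, h2, -⟩
        exact hcon ⟨h1, h2⟩
      have hzero : ∀ q', q' ≠ q → GG π t lam σ ρ u v p q' = 0 := by
        intro q' hne
        by_contra hcon
        obtain ⟨h1, h2⟩ := hcond q hq
        obtain ⟨h3, h4⟩ := hcond q' hcon
        have h5 := hπ (hu q') (hu q) (h4.symm.trans h2)
        have h6 : u q' = u q := h3.symm.trans h1
        unfold pos at h5
        rw [h6] at h5
        exact hne (Prod.ext ((σ (u q)).injective (Prod.ext_iff.mp h5).1)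
          ((ρ (u q)).injective (Prod.ext_iff.mp h5).2))
      have h2 : gform (GG π t lam σ ρ u) v p =
          C (GG π t lam σ ρ u v p q) * X (Sum.inr q) := by
        unfold gform
        rw [Finset.sum_eq_single q]
        · intro q' _ hne
          rw [hzero q' hne]
          simp
        · simp
      rw [h2]
      exact Cost.mul (Or.inr ⟨_, rfl⟩) (Or.inl ⟨_, rfl⟩)
    · push Not at h
      have h2 : gform (GG π t lam σ ρ u) v p = 0 := by
        unfold gform
        refine Finset.sum_eq_zero fun q _ => ?_
        rw [h q]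
        simp
      rw [h2]
      refine Cost.of_subset ?_ _
      rintro _ rfl
      exact Or.inr ⟨0, map_zero _⟩
  have h2 := Cost.range h1
  simp only [Fintype.card_prod, Fintype.card_fin] at h2
  refine h2.mono subset_rfl subset_rfl (le_of_eq (by ring))

end entry

/-- **Rearrangements and entrywise functions: number of operations and rank.** -/
theorem entry_bounds (hm : 2 ≤ m) (Q : Finset (Fin m × Fin m))
    (π : Fin m × Fin m → Fin m × Fin m) (hπ : Set.InjOn π Q) (t : Fin m × Fin m → Polynomial K)
    (ht : ∀ x ∈ Q, ∃ c : K, (Polynomial.derivative (t x)).eval c ≠ 0) {N s : ℕ}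
    (hN : m ^ 2 * (m ^ 2 - Q.card) ^ N < (m ^ 2) ^ N)
    (hC : Cost (inputs K (Fin m × Fin m)) (selfOut (entryMat Q π t)) s) :
    Cost (inputs K (Vars m)) (outMM K m) (2 * N * (48 * s + 2 * m ^ 2)) ∧
      trank K m m m ≤ 12 * N * s := by
  classical
  obtain ⟨σ, ρ, hcov⟩ := exists_perms (by omega) Q hN
  choose u hu using fun q : Fin m × Fin m => hcov q.1 q.2
  have hlam : ∃ lam : Fin m × Fin m → K,
      ∀ x ∈ Q, (Polynomial.derivative (t x)).eval (lam x) ≠ 0 := by
    choose! lam hlam using ht
    exact ⟨lam, hlam⟩
  obtain ⟨lam, hlam⟩ := hlam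
  have hrec := recovers_entry Q π t lam σ ρ u hπ hlam hu
  constructor
  · refine (core_cost hm hrec hC (cost_gforms_entry Q π t lam σ ρ u hπ hu)).mono subset_rfl
      subset_rfl (le_of_eq ?_)
    ring
  · refine (core_rank hm hrec hC).trans (le_of_eq ?_)
    ring

/-- **Linear maps: number of operations and rank.** -/
theorem linear_bounds (hm : 2 ≤ m) (τ : (Fin m × Fin m → K) ≃ₗ[K] (Fin m × Fin m → K)) {s c : ℕ}
    (hC : Cost (inputs K (Fin m × Fin m))
      (selfOut (linMat (τ : (Fin m × Fin m → K) →ₗ[K] (Fin m × Fin m → K)))) s)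
    (hc : Cost (inputs K (Fin m × Fin m)) (Set.range fun t : Fin m × Fin m =>
      linMat (τ.symm : (Fin m × Fin m → K) →ₗ[K] (Fin m × Fin m → K)) t.1 t.2) c) :
    Cost (inputs K (Vars m)) (outMM K m) (96 * s + c + 2 * m ^ 2) ∧
      trank K m m m ≤ 12 * s := by
  constructor
  · refine (core_cost hm (recovers_linear τ) hC (cost_gforms_linear τ hc)).mono subset_rfl
      subset_rfl (le_of_eq ?_)
    ring
  · refine (core_rank hm (recovers_linear τ) hC).trans (le_of_eq ?_)
    ring

end Pool.Agent.H239.SP
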