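import Pool.Agent.H239.SP.Part5

set_option autoImplicit false
set_option linter.unusedSectionVars false

namespace Pool.Agent.H239.SP

open Finset MvPolynomial Filter Pool.Agent.H522R2 Pool.Agent.H522R2.Circuit Pool.Agent.W956.KF
  Pool.Agent.H88R3.MM Pool.Agent.H826R3.SM

variable {K : Type} [Field K] {m : ℕ}

/-! ### Upper bounds -/

theorem cost_aeval {R : Type} [CommRing R] [Algebra K R] {T : Set R}
    (hT : ∀ c : K, algebraMap K R c ∈ T) {x : R} (hx : x ∈ T) (d : ℕ) :
    ∀ P : Polynomial K, P.natDegree ≤ d → Cost T {Polynomial.aeval x P} (2 * d) := by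
  induction d with
  | zero =>
    intro P hP
    rw [Polynomial.eq_C_of_natDegree_le_zero hP, Polynomial.aeval_C]
    refine Cost.of_subset ?_ _
    rintro _ rfl
    exact hT _
  | succ d ih =>
    intro P hP
    have h1 : (Polynomial.divX P).natDegree ≤ d := by
      rw [Polynomial.natDegree_divX_eq_natDegree_tsub_one]
      omega
    have h2 := ih _ h1
    have h3 : Polynomial.aeval x P = Polynomial.aeval x (Polynomial.divX P) * x +
        algebraMap K R (P.coeff 0) := by
      conv_lhs => rw [← Polynomial.divX_mul_X_add P]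
      rw [map_add, map_mul, Polynomial.aeval_X, Polynomial.aeval_C]
    rw [h3]
    have h4 : Cost (T ∪ {Polynomial.aeval x (Polynomial.divX P)})
        {Polynomial.aeval x (Polynomial.divX P) * x} 1 := Cost.mul (Or.inr rfl) (Or.inl hx)
    have h5 : Cost (T ∪ ({Polynomial.aeval x (Polynomial.divX P)} ∪
        {Polynomial.aeval x (Polynomial.divX P) * x}))
        {Polynomial.aeval x (Polynomial.divX P) * x + algebraMap K R (P.coeff 0)} 1 :=
      Cost.add (Or.inr (Or.inr rfl)) (Or.inl (hT _))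
    exact ((h2.comp h4).comp h5).mono subset_rfl Set.subset_union_right (by omega)

theorem cost_self_of_MM (f : Fin m → Fin m → MvPolynomial (Fin m × Fin m) K) {c : ℕ}
    (hf : Cost (inputs K (Fin m × Fin m)) (Set.range fun x : Fin m × Fin m => f x.1 x.2) c) :
    Cost (inputs K (Fin m × Fin m)) (selfOut f) (sizeMM K m + c) := by
  let φ : MvPolynomial (Vars m) K →+* MvPolynomial (Fin m × Fin m) K :=
    MvPolynomial.eval₂Hom MvPolynomial.C (Sum.elim MvPolynomial.X fun x => f x.1 x.2)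
  have h1 : Cost (inputs K (Fin m × Fin m) ∪ (Set.range fun x : Fin m × Fin m => f x.1 x.2))
      (selfOut f) (sizeMM K m) := by
    refine ((cost_MM_sizeMM K m).map φ).mono ?_ ?_ le_rfl
    · rintro _ ⟨_, ⟨v, rfl⟩ | ⟨c, rfl⟩, rfl⟩
      · rcases v with v | v
        · exact Or.inl (Or.inl ⟨v, by simp [φ]⟩)
        · exact Or.inr ⟨v, by simp [φ]⟩
      · exact Or.inl (Or.inr ⟨c, by simp [φ]⟩)
    · rintro _ ⟨⟨i, k⟩, rfl⟩
      refine ⟨_, ⟨(i, k), rfl⟩, ?_⟩
      simp only [entryMM, selfEntry, map_sum, map_mul]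
      refine Finset.sum_congr rfl fun j _ => ?_
      simp [φ]
  exact (hf.comp h1).mono subset_rfl Set.subset_union_right (by omega)

theorem cost_entryMat (Q : Finset (Fin m × Fin m)) (π : Fin m × Fin m → Fin m × Fin m)
    (t : Fin m × Fin m → Polynomial K) {d : ℕ} (hd : ∀ x ∈ Q, (t x).natDegree ≤ d) :
    Cost (inputs K (Fin m × Fin m)) (Set.range fun x : Fin m × Fin m => entryMat Q π t x.1 x.2)
      (m ^ 2 * (2 * d)) := by
  classical
  have h1 : ∀ x : Fin m × Fin m, Cost (inputs K (Fin m × Fin m))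
      {entryMat Q π t x.1 x.2} (2 * d) := by
    rintro ⟨j, k⟩
    unfold entryMat
    by_cases h : (j, k) ∈ Q
    · simp only [if_pos h]
      exact cost_aeval (fun c => C_mem_inputs c) (X_mem_inputs _) d _ (hd _ h)
    · simp only [if_neg h]
      refine Cost.of_subset ?_ _
      rintro _ rfl
      exact Or.inr ⟨0, map_zero _⟩
  have h2 := Cost.range h1
  simp only [Fintype.card_prod, Fintype.card_fin] at h2
  exact h2.mono subset_rfl subset_rfl (le_of_eq (by ring))

/-! ### Sizes -/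

/-- The least size of a circuit over `K` which computes the entries of `A f(A)`. -/
noncomputable def selfSize (K : Type) [Field K] (m : ℕ)
    (f : Fin m → Fin m → MvPolynomial (Fin m × Fin m) K) : ℕ :=
  sInf {s | ∃ C : Circuit K (Fin m × Fin m),
    (∀ i k : Fin m, ∃ v : Fin C.nodes, C.poly v = selfEntry f i k) ∧ C.size = s}

theorem selfSize_le {f : Fin m → Fin m → MvPolynomial (Fin m × Fin m) K} {s : ℕ}
    (h : Cost (inputs K (Fin m × Fin m)) (selfOut f) s) : selfSize K m f ≤ s := by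
  obtain ⟨C, h1, h2⟩ := exists_circuit_of_cost (Set.finite_range _) h
  exact le_trans (Nat.sInf_le ⟨C, fun i k => h2 _ ⟨(i, k), rfl⟩, rfl⟩) h1

theorem cost_of_self {f : Fin m → Fin m → MvPolynomial (Fin m × Fin m) K}
    (C : Circuit K (Fin m × Fin m))
    (h : ∀ i k : Fin m, ∃ v : Fin C.nodes, C.poly v = selfEntry f i k) :
    Cost (inputs K (Fin m × Fin m)) (selfOut f) C.size := by
  refine (cost_of_circuit C).mono subset_rfl ?_ le_rfl
  rintro _ ⟨⟨i, k⟩, rfl⟩
  exact h i k

theorem cost_selfSize {f : Fin m → Fin m → MvPolynomial (Fin m × Fin m) K} {s : ℕ}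
    (h : Cost (inputs K (Fin m × Fin m)) (selfOut f) s) :
    Cost (inputs K (Fin m × Fin m)) (selfOut f) (selfSize K m f) := by
  obtain ⟨C, h1, h2⟩ := exists_circuit_of_cost (Set.finite_range _) h
  obtain ⟨C', h3, h4⟩ := Nat.sInf_mem (s := {s | ∃ C : Circuit K (Fin m × Fin m),
    (∀ i k : Fin m, ∃ v : Fin C.nodes, C.poly v = selfEntry f i k) ∧ C.size = s})
    ⟨_, C, fun i k => h2 _ ⟨(i, k), rfl⟩, rfl⟩
  have h5 := cost_of_self C' h3
  rw [h4] at h5
  exact h5

/-! ### The rank is at most 12 times the size -/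

theorem reach_zero {R : Type} [CommRing R] {T T' : Set R} {s : ℕ} (h : Reach T s T')
    (hs : s = 0) : T' = T := by
  induction h with
  | refl => rfl
  | add _ _ _ _ => omega
  | mul _ _ _ _ => omega

theorem trank_le_sizeMM (K : Type) [Field K] (m : ℕ) : trank K m m m ≤ 12 * sizeMM K m := by
  classical
  rcases Nat.lt_or_ge m 2 with h | h
  · rcases Nat.lt_or_ge m 1 with h0 | h1
    · have : m = 0 := by omega
      subst this
      refine (trank_le (K := K) (r := 0) ⟨fun _ => 0, fun _ => 0, fun _ => 0,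
        fun i => i.elim0⟩).trans (Nat.zero_le _)
    · have : m = 1 := by omega
      subst this
      have h1 : trank K 1 1 1 ≤ 1 := by
        have := trank_le (rankLE_cube K 1 1 1)
        simpa using this
      have h2 : 1 ≤ sizeMM K 1 := by
        by_contra hcon
        have h0 : sizeMM K 1 = 0 := by omega
        have hc := cost_MM_sizeMM K 1
        rw [h0] at hc
        obtain ⟨s', hs', T', hT', hsub⟩ := hc
        have h3 : T' = inputs K (Vars 1) := reach_zero hT' (by omega)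
        rw [h3] at hsub
        have h4 := hsub ⟨(0, 0), rfl⟩
        have e1 : entryMM K 1 0 0 = X (Sum.inl (0, 0)) * X (Sum.inr (0, 0)) := by
          unfold entryMM
          simp
        simp only [e1] at h4
        have hev : ∀ a b : K, MvPolynomial.eval (Sum.elim (fun _ => a) (fun _ => b))
            (X (Sum.inl (0, 0)) * X (Sum.inr (0, 0)) : MvPolynomial (Vars 1) K) = a * b := by
          intro a b
          simp
        rcases h4 with ⟨v, hv⟩ | ⟨c, hc⟩
        · rcases v with v | v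
          · have h5 := hev 1 0
            rw [← hv] at h5
            simp at h5
          · have h5 := hev 0 1
            rw [← hv] at h5
            simp at h5
        · have h5 := hev 1 1
          have h6 := hev 0 0
          rw [← hc, eval_C] at h5 h6
          rw [h5] at h6
          simp at h6
      omega
  · have hτ := core_rank (K := K) (m := m) h
      (recovers_linear (LinearEquiv.refl K (Fin m × Fin m → K))) (s := sizeMM K m) (by
      refine (cost_self_of_MM _ (c := 0) (Cost.of_subset ?_ _)).mono subset_rfl subset_rfl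
        (by omega)
      rintro _ ⟨⟨j, k⟩, rfl⟩
      refine Or.inl ⟨(j, k), ?_⟩
      unfold linMat
      beta_reduce
      rw [Finset.sum_eq_single (j, k)]
      · simp
      · intro p _ hp
        simp [Ne.symm hp]
      · simp)
    omega

theorem superlinear_sizeMM (K : Type) [Field K] :
    Superlinear (sizeMM K) ↔ 2 < omegaMM K :=
  superlinear_iff (c := 12) (by norm_num) (trank_le_sizeMM K) fun _ hτ => sizeMM_upper hτ

/-- Superlinear growth for all large `m`. -/
def EvSuperlinear (f : ℕ → ℕ) : Prop :=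
  ∃ α : ℝ, 1 < α ∧ ∃ c : ℝ, 0 < c ∧ ∀ᶠ m : ℕ in atTop, c * (((m : ℝ) ^ 2) ^ α) ≤ f m

/-- enough shifts -/
theorem enough {ε : ℝ} (hε : 0 < ε) (hm : 2 ≤ m) (Q : Finset (Fin m × Fin m))
    (hQ : ε * (m : ℝ) ^ 2 ≤ Q.card) :
    m ^ 2 * (m ^ 2 - Q.card) ^ (⌊2 * Real.log m / ε⌋₊ + 1) <
      (m ^ 2) ^ (⌊2 * Real.log m / ε⌋₊ + 1) := by
  set N := ⌊2 * Real.log m / ε⌋₊ + 1 with hN
  have hm0 : (0 : ℝ) < m := by exact_mod_cast (by omega : 0 < m)
  have hcard : Q.card ≤ m ^ 2 := by
    have := Finset.card_le_univ Q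
    rwa [Fintype.card_prod, Fintype.card_fin, ← pow_two] at this
  have hN1 : 2 * Real.log m / ε < N := by
    rw [hN]
    push_cast
    exact Nat.lt_floor_add_one _
  rw [div_lt_iff₀ hε] at hN1
  have h1 : ((m ^ 2 - Q.card : ℕ) : ℝ) ≤ Real.exp (-ε) * (m : ℝ) ^ 2 := by
    rw [Nat.cast_sub hcard]
    push_cast
    have h2 : 1 - ε ≤ Real.exp (-ε) := by
      have := Real.add_one_le_exp (-ε)
      linarith
    have h3 : (1 - ε) * (m : ℝ) ^ 2 ≤ Real.exp (-ε) * (m : ℝ) ^ 2 :=
      mul_le_mul_of_nonneg_right h2 (by positivity)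
    linarith
  have h2 : (((m ^ 2 - Q.card : ℕ) : ℝ)) ^ N ≤ (Real.exp (-ε) * (m : ℝ) ^ 2) ^ N :=
    pow_le_pow_left₀ (Nat.cast_nonneg _) h1 N
  have h3 : (m : ℝ) ^ 2 * Real.exp (-ε) ^ N < 1 := by
    rw [← Real.exp_nat_mul]
    have h4 : (m : ℝ) ^ 2 = Real.exp (2 * Real.log m) := by
      rw [two_mul, Real.exp_add, Real.exp_log hm0, pow_two]
    rw [h4, ← Real.exp_add, Real.exp_lt_one_iff]
    nlinarith
  have h5 : ((m ^ 2 * (m ^ 2 - Q.card) ^ N : ℕ) : ℝ) < (((m ^ 2) ^ N : ℕ) : ℝ) := by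
    push_cast
    calc (m : ℝ) ^ 2 * ((m ^ 2 - Q.card : ℕ) : ℝ) ^ N
        ≤ (m : ℝ) ^ 2 * (Real.exp (-ε) * (m : ℝ) ^ 2) ^ N :=
          mul_le_mul_of_nonneg_left h2 (by positivity)
      _ = ((m : ℝ) ^ 2 * Real.exp (-ε) ^ N) * ((m : ℝ) ^ 2) ^ N := by
          rw [mul_pow]; ring
      _ < 1 * ((m : ℝ) ^ 2) ^ N := mul_lt_mul_of_pos_right h3 (by positivity)
      _ = ((m : ℝ) ^ 2) ^ N := one_mul _
  exact_mod_cast h5

/-- **Growth.** -/
theorem entry_growth {ε : ℝ} (hε : 0 < ε) (d : ℕ) (Q : (m : ℕ) → Finset (Fin m × Fin m))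
    (π : (m : ℕ) → Fin m × Fin m → Fin m × Fin m) (t : (m : ℕ) → Fin m × Fin m → Polynomial K)
    (hπ : ∀ m, Set.InjOn (π m) (Q m))
    (ht : ∀ m, ∀ x ∈ Q m, (t m x).natDegree ≤ d ∧
      ∃ c : K, (Polynomial.derivative (t m x)).eval c ≠ 0)
    (hQ : ∀ᶠ m : ℕ in atTop, ε * (m : ℝ) ^ 2 ≤ (Q m).card) :
    growth (fun m => selfSize K m (entryMat (Q m) (π m) (t m))) = omega K ∧
      (EvSuperlinear (fun m => selfSize K m (entryMat (Q m) (π m) (t m))) ↔
        Superlinear (sizeMM K)) := by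
  classical
  set F : ℕ → ℕ := fun m => selfSize K m (entryMat (Q m) (π m) (t m)) with hF
  rw [omega_eq, superlinear_sizeMM]
  have hcost : ∀ m, Cost (inputs K (Fin m × Fin m)) (selfOut (entryMat (Q m) (π m) (t m)))
      (sizeMM K m + m ^ 2 * (2 * d)) := fun m =>
    cost_self_of_MM _ (cost_entryMat (Q m) (π m) (t m) fun x hx => (ht m x hx).1)
  have hup0 : ∀ m, F m ≤ sizeMM K m + m ^ 2 * (2 * d) := fun m => selfSize_le (hcost m)
  have hsq : ∀ m, m ^ 2 ≤ 12 * sizeMM K m := fun m =>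
    (sq_le_trank K m).trans (trank_le_sizeMM K m)
  have hup1 : ∀ m, F m ≤ (1 + 24 * d) * sizeMM K m := by
    intro m
    refine (hup0 m).trans ?_
    have := Nat.mul_le_mul_right (2 * d) (hsq m)
    nlinarith
  have hup : ∀ τ, omegaMM K < τ → ∃ D : ℝ, ∀ m : ℕ, (F m : ℝ) ≤ D * (m : ℝ) ^ τ := by
    intro τ hτ
    obtain ⟨C, hC⟩ := sizeMM_upper (K := K) hτ
    refine ⟨(1 + 24 * d) * C, fun m => ?_⟩
    have h1 : (F m : ℝ) ≤ (1 + 24 * d) * sizeMM K m := by exact_mod_cast hup1 m
    calc (F m : ℝ) ≤ (1 + 24 * d) * sizeMM K m := h1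
      _ ≤ (1 + 24 * d) * (C * (m : ℝ) ^ τ) :=
          mul_le_mul_of_nonneg_left (hC m) (by positivity)
      _ = _ := by ring
  -- lower bound
  have hlow : ∀ δ : ℝ, 0 < δ → ∃ c : ℝ, 0 < c ∧ ∀ᶠ m : ℕ in atTop,
      c * (m : ℝ) ^ (omegaMM K - δ) ≤ F m := by
    intro δ hδ
    set B : ℝ := 2 / (ε * δ) + 1 with hB
    have hB0 : 0 < B := by positivity
    refine ⟨1 / (12 * B), by positivity, ?_⟩
    filter_upwards [hQ, eventually_ge_atTop 2] with m hQm hm
    have hm0 : (0 : ℝ) < m := by exact_mod_cast (by omega : 0 < m)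
    have hm1 : (1 : ℝ) ≤ m := by exact_mod_cast (by omega : 1 ≤ m)
    have hN := enough hε hm (Q m) hQm
    set N := ⌊2 * Real.log m / ε⌋₊ + 1 with hNdef
    have h1 := (entry_bounds hm (Q m) (π m) (hπ m) (t m) (fun x hx => (ht m x hx).2) hN
      (cost_selfSize (hcost m))).2
    have h2 := rpow_omega_le K m (by omega)
    have h3 : (trank K m m m : ℝ) ≤ 12 * N * F m := by exact_mod_cast h1
    have h4 : (N : ℝ) ≤ B * (m : ℝ) ^ δ := by
      have h5 : (⌊2 * Real.log m / ε⌋₊ : ℝ) ≤ 2 * Real.log m / ε :=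
        Nat.floor_le (by have := Real.log_nonneg hm1; positivity)
      have h6 : Real.log m ≤ (m : ℝ) ^ δ / δ := Real.log_le_rpow_div hm0.le hδ
      have h7 : 1 ≤ (m : ℝ) ^ δ := Real.one_le_rpow hm1 hδ.le
      have h8 : 2 * Real.log m / ε ≤ 2 / (ε * δ) * (m : ℝ) ^ δ := by
        rw [div_le_iff₀ hε]
        have h9 : 2 / (ε * δ) * (m : ℝ) ^ δ * ε = 2 * ((m : ℝ) ^ δ / δ) := by
          field_simp
        rw [h9]
        linarith
      rw [hNdef, hB]
      push_cast
      linarith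
    have h5 : (m : ℝ) ^ omegaMM K = (m : ℝ) ^ (omegaMM K - δ) * (m : ℝ) ^ δ := by
      rw [← Real.rpow_add hm0]; congr 1; ring
    have h6 : 0 < (m : ℝ) ^ δ := Real.rpow_pos_of_pos hm0 _
    have h7 : (m : ℝ) ^ (omegaMM K - δ) * (m : ℝ) ^ δ ≤ 12 * B * F m * (m : ℝ) ^ δ := by
      rw [← h5]
      calc (m : ℝ) ^ omegaMM K ≤ 12 * N * F m := h2.trans h3
        _ ≤ 12 * (B * (m : ℝ) ^ δ) * F m := by
            apply mul_le_mul_of_nonneg_right _ (Nat.cast_nonneg _)
            linarith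
        _ = _ := by ring
    have h8 := le_of_mul_le_mul_right h7 h6
    rw [div_mul_eq_mul_div, one_mul, div_le_iff₀ (by positivity)]
    linarith
  have hcmp : ∀ τ D : ℝ, (∃ᶠ m : ℕ in atTop, (F m : ℝ) ≤ D * (m : ℝ) ^ τ) → omegaMM K ≤ τ := by
    intro τ D hfr
    by_contra hcon
    push Not at hcon
    obtain ⟨c, hc, hev⟩ := hlow ((omegaMM K - τ) / 2) (by linarith)
    have hlim : Tendsto (fun q : ℕ => (q : ℝ) ^ ((omegaMM K - τ) / 2)) atTop atTop :=
      (tendsto_rpow_atTop (by linarith)).comp tendsto_natCast_atTop_atTop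
    obtain ⟨m, h1, h2, h3, h4⟩ := (hfr.and_eventually (hev.and
      ((hlim.eventually_gt_atTop (D / c)).and (eventually_ge_atTop 1)))).exists
    have hm0 : (0 : ℝ) < m := by exact_mod_cast h4
    have h5 := h2.trans h1
    have h6 : (m : ℝ) ^ (omegaMM K - (omegaMM K - τ) / 2) =
        (m : ℝ) ^ ((omegaMM K - τ) / 2) * (m : ℝ) ^ τ := by
      rw [← Real.rpow_add hm0]; congr 1; ring
    have h7 : 0 < (m : ℝ) ^ τ := Real.rpow_pos_of_pos hm0 _
    rw [h6, ← mul_assoc] at h5
    have h8 := le_of_mul_le_mul_right h5 h7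
    rw [div_lt_iff₀ hc] at h3
    nlinarith
  constructor
  · apply le_antisymm
    · refine le_of_forall_pos_le_add fun δ hδ => ?_
      refine csInf_le ⟨omegaMM K, ?_⟩ (hup _ (by linarith))
      rintro τ ⟨D, hD⟩
      exact hcmp τ D (Frequently.of_forall hD)
    · refine le_csInf ⟨_, hup _ (lt_add_one _)⟩ ?_
      rintro τ ⟨D, hD⟩
      exact hcmp τ D (Frequently.of_forall hD)
  · constructor
    · rintro ⟨α, hα, a, ha, h⟩
      by_contra hcon
      push Not at hcon
      obtain ⟨D, hD⟩ := hup (1 + α) (by linarith)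
      have hlim : Tendsto (fun q : ℕ => (q : ℝ) ^ (2 * α - (1 + α))) atTop atTop :=
        (tendsto_rpow_atTop (by linarith)).comp tendsto_natCast_atTop_atTop
      obtain ⟨m, hm1, hm2, hm3⟩ := ((hlim.eventually_gt_atTop (D / a)).and
        ((eventually_ge_atTop 1).and h)).exists
      have hm0 : (0 : ℝ) < m := by exact_mod_cast hm2
      have h1 := hm3.trans (hD m)
      have e1 : ((m : ℝ) ^ 2) ^ α = (m : ℝ) ^ (2 * α - (1 + α)) * (m : ℝ) ^ (1 + α) := by
        rw [← Real.rpow_add hm0, ← Real.rpow_natCast (m : ℝ) 2, ← Real.rpow_mul hm0.le]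
        congr 1
        push_cast
        ring
      rw [e1] at h1
      have h2 : 0 < (m : ℝ) ^ (1 + α) := Real.rpow_pos_of_pos hm0 _
      have h3 : D < a * (m : ℝ) ^ (2 * α - (1 + α)) := by
        rw [div_lt_iff₀ ha] at hm1
        linarith
      have h4 := mul_lt_mul_of_pos_right h3 h2
      linarith [mul_assoc a ((m : ℝ) ^ (2 * α - (1 + α))) ((m : ℝ) ^ (1 + α))]
    · intro h
      obtain ⟨c, hc, hev⟩ := hlow ((omegaMM K - 2) / 2) (by linarith)
      refine ⟨(omegaMM K - (omegaMM K - 2) / 2) / 2, by linarith, c, hc, ?_⟩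
      filter_upwards [hev, eventually_ge_atTop 1] with m h1 h2
      have hm0 : (0 : ℝ) < m := by exact_mod_cast h2
      have e1 : ((m : ℝ) ^ 2) ^ ((omegaMM K - (omegaMM K - 2) / 2) / 2) =
          (m : ℝ) ^ (omegaMM K - (omegaMM K - 2) / 2) := by
        rw [← Real.rpow_natCast (m : ℝ) 2, ← Real.rpow_mul hm0.le]
        congr 1
        push_cast
        ring
      rw [e1]
      exact h1

end Pool.Agent.H239.SP
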